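import Pool.Agent.Helper25.PAV.Main

set_option autoImplicit false

/-!
# The two halves of the paving conjecture are equivalent (MP_f46acb_co)
-/

namespace Pool.Agent.Results.MP_f46acb_co.LabelledUnlabelled

open Filter Pool.Agent.Helper25.PAV

/-- `M` is paving: every circuit has at least `r(M)` elements -/
def Paving {n : ℕ} (M : Matroid (Fin n)) : Prop :=
  ∀ C : Set (Fin n), M.IsCircuit C → M.eRank ≤ C.encard

/-- `f(n)`, the number of unlabelled matroids on `n` elements -/
noncomputable def f (n : ℕ) : ℕ := unlabelled n fun _ => True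

/-- `l(n)`, the number of labelled matroids on `n` elements -/
noncomputable def l (n : ℕ) : ℕ := labelled n fun _ => True

theorem paving_map {n : ℕ} {M : Matroid (Fin n)} (σ : Equiv.Perm (Fin n)) (h : Paving M) :
    Paving (M.mapEquiv σ) := by
  intro C hC
  have hr : (M.mapEquiv σ).eRank = M.eRank := by
    rw [Matroid.mapEquiv_eq_map]
    exact Matroid.eRank_map M _
  have hc : M.IsCircuit (σ.symm '' C) := by
    constructor
    · exact Matroid.mapEquiv_dep_iff.1 hC.1
    · intro D hD hDC
      have h1 : σ.symm '' (σ '' D) = D := by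
        rw [Set.image_image]
        simp
      have h2 : σ '' D ≤ C := by
        rintro x ⟨y, hy, rfl⟩
        obtain ⟨z, hz, hzy⟩ := hDC hy
        rw [← hzy]
        simpa using hz
      have h3 : (M.mapEquiv σ).Dep (σ '' D) := Matroid.mapEquiv_dep_iff.2 (by rwa [h1])
      have h4 := hC.2 h3 h2
      rw [← h1]
      exact Set.image_mono h4
  rw [hr]
  refine (h _ hc).trans_eq ?_
  exact σ.symm.injective.encard_image C

theorem paving_inv (n : ℕ) : Invariant n Paving := by
  have key : ∀ M N : Mat n, Iso n M N → Paving M.1 → Paving N.1 := by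
    rintro M N ⟨σ, hσ⟩ h
    rw [← act_eq_of_iso hσ]
    exact paving_map σ h
  intro M N h
  exact ⟨key M N h, key N M ((Pool.Agent.Helper46.A.F.rr_equiv_22726 n).symm h)⟩

/-- `n! / 2 ^ (n ^ 2) → 0` -/
theorem err : Tendsto (fun n : ℕ => (n.factorial : ℝ) / 2 ^ (n ^ 2)) atTop (nhds 0) := by
  refine squeeze_zero (fun n => by positivity) (fun n => ?_) Pool.Agent.Helper46.A.F.num_22726
  have h1 : (1 : ℝ) ≤ n.factorial := by exact_mod_cast n.factorial_pos
  gcongr
  nlinarith

/-- the difference of the two proportions -/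
theorem diff {P : ∀ n : ℕ, Matroid (Fin n) → Prop} (hP : ∀ n, Invariant n (P n)) :
    Tendsto (fun n : ℕ => (unlabelled n (P n) : ℝ) / f n - (labelled n (P n) : ℝ) / l n) atTop
      (nhds 0) := by
  rw [tendsto_zero_iff_abs_tendsto_zero]
  refine squeeze_zero' (Eventually.of_forall fun n => abs_nonneg _) ?_ err
  filter_upwards [main] with n hn
  exact (hn (P n) (hP n)).1

/-- **Main theorem.** Proportions of labelled and of unlabelled matroids agree up to
`n! / 2 ^ (n ^ 2)`, for every property invariant under isomorphism; in particular the two halves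
of the paving conjecture are equivalent. -/
theorem result :
    (∀ᶠ n : ℕ in atTop, ∀ P : Matroid (Fin n) → Prop, Invariant n P →
      |(unlabelled n P : ℝ) / f n - (labelled n P : ℝ) / l n| ≤
        (n.factorial : ℝ) / 2 ^ (n ^ 2)) ∧
    (∀ᶠ n : ℕ in atTop, |(f n : ℝ) * n.factorial / l n - 1| ≤
        (n.factorial : ℝ) / 2 ^ (n ^ 2)) ∧
    (∀ P : ∀ n : ℕ, Matroid (Fin n) → Prop, (∀ n, Invariant n (P n)) → ∀ L : ℝ,
      (Tendsto (fun n => (unlabelled n (P n) : ℝ) / f n) atTop (nhds L) ↔
        Tendsto (fun n => (labelled n (P n) : ℝ) / l n) atTop (nhds L))) ∧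
    (∀ n, Invariant n Paving) ∧
    Tendsto (fun n => (unlabelled n Paving : ℝ) / f n - (labelled n Paving : ℝ) / l n) atTop
      (nhds 0) ∧
    (Tendsto (fun n => (unlabelled n Paving : ℝ) / f n) atTop (nhds 1) ↔
      Tendsto (fun n => (labelled n Paving : ℝ) / l n) atTop (nhds 1)) := by
  have key : ∀ P : ∀ n : ℕ, Matroid (Fin n) → Prop, (∀ n, Invariant n (P n)) → ∀ L : ℝ,
      (Tendsto (fun n => (unlabelled n (P n) : ℝ) / f n) atTop (nhds L) ↔
        Tendsto (fun n => (labelled n (P n) : ℝ) / l n) atTop (nhds L)) := by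
    intro P hP L
    constructor
    · intro h
      have h1 := h.sub (diff hP)
      simpa using h1
    · intro h
      have h1 := h.add (diff hP)
      simpa using h1
  refine ⟨?_, ?_, key, paving_inv, diff fun n => paving_inv n, key (fun n => Paving)
    (fun n => paving_inv n) 1⟩
  · filter_upwards [main] with n hn P hP
    exact (hn P hP).1
  · filter_upwards [main] with n hn
    exact (hn (fun _ => True) (fun _ _ _ => Iff.rfl)).2

end Pool.Agent.Results.MP_f46acb_co.LabelledUnlabelled
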